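import Pool.Agent.K4H25.RT.R3
import Pool.Agent.K4H25.PC.Pairs

/-!
Sections of `m (K_X + Δ)` from relative forms and from pluricanonical forms with poles on the base.
-/

set_option autoImplicit false
set_option linter.unusedSectionVars false
set_option linter.overlappingInstances false
set_option maxHeartbeats 4000000
set_option synthInstance.maxHeartbeats 400000

open Module FF Pool.Agent.W602.GT Pool.Agent.W603.LV Pool.Agent.Y172
open Pool.Agent.Y184.NT (trForm trForm_pluri)
open Pool.Agent.R882.LT (SecAt TraceNe secAt_of trForm_regAt)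

namespace Pool.Agent.K4H25.RP

open Pool.Agent.K4H25.MG Pool.Agent.K4H25.PC Pool.Agent.K4H25.RT

section

variable {L E : Type} [Field L] [Field E] [Algebra ℂ L] [Algebra ℂ E] [Algebra E L]
  [IsScalarTower ℂ E L] {n e : ℕ}

/-- the product of relative forms and of a pluricanonical form with poles on the base -/
theorem prod_ord [Algebra.EssFiniteType ℂ E] (hL : Algebra.trdeg ℂ L = n)
    (hE : Algebra.trdeg ℂ E = e) {z : Fin e → E} (hz : IsTranscendenceBasis ℂ z)
    {y : Fin n → L} {m : ℕ} {b : E} {P : Place ℂ L} (hP : Divisorial n P) {q : ℚ} (hq : 0 ≤ q)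
    (hb : ∀ (R : Place ℂ E) (c : ℕ), Over P R c → OrdGe R (pForm m z b) (-(q / c)))
    {T : Fin m → L} (hT : ∀ k, RelReg n z y (T k)) :
    OrdGe P (pForm m y (algebraMap E L b * ∏ k, T k)) (-q) := by
  classical
  -- a multiple `g ^ m` of the form on the base
  obtain ⟨g, c, hg, hc, hbc⟩ : ∃ g c : E,
      (∀ (R : Place ℂ E) (a : ℕ), Over P R a → RegAt R (trForm z g)) ∧
      (algebraMap E L c = 0 ∨ -q ≤ P.ord (algebraMap E L c)) ∧ b = c * g ^ m := by
    by_cases htriv : ∃ f : E, P.ord (algebraMap E L f) ≠ 0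
    · obtain ⟨a, R, hR⟩ := exists_over P htriv
      have hRd : Divisorial e R := div_below hR hL hE hP
      obtain ⟨u, U, i0, hl⟩ := exists_loc hE hRd
      obtain ⟨δ, hδ⟩ : ∃ δ : E, δ = (Matrix.of fun i j => U i (z j) :
        Matrix (Fin e) (Fin e) E).det := ⟨_, rfl⟩
      have hδ0 : δ ≠ 0 := by
        intro h0
        have h1 := pluri_coord (k := ℂ) hz (E := fun i => (exists_der _ hz
          fun j => if i = j then (1 : E) else 0).choose)
          (fun i j => (exists_der _ hz fun j => if i = j then (1 : E) else 0).choose_spec j)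
          (trForm_pluri u (1 : E)) U
        rw [← hδ, h0, pow_one, zero_mul, trForm_eq, pForm_dual hl.dual] at h1
        exact one_ne_zero h1
      refine ⟨δ⁻¹, δ ^ m * b, ?_, ?_, ?_⟩
      · intro R' a' hR'
        obtain ⟨rfl, -⟩ := over_unique' hR hR'
        intro D hD
        have h1 := loc_ge hl (trForm_pluri z δ⁻¹) hD
        have h2 : trForm z δ⁻¹ U = 1 := by
          rw [trForm, ← hδ, mul_inv_cancel₀ hδ0]
        rw [h2, R.ord_one] at h1
        exact h1
      · have h1 := hb R a hR U hl.pres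
        rw [pForm, ← hδ] at h1
        rcases h1 with h1 | h1
        · left
          rw [h1, map_zero]
        · right
          rw [hR.2]
          have ha : (0 : ℚ) < a := by exact_mod_cast hR.1
          push_cast
          have h2 : (a : ℚ) * (-(q / a)) ≤ a * R.ord (δ ^ m * b) :=
            mul_le_mul_of_nonneg_left h1 ha.le
          have h3 : (a : ℚ) * (-(q / a)) = -q := by
            field_simp
          rw [h3] at h2
          exact h2
      · rw [mul_comm (δ ^ m) b, mul_assoc, ← mul_pow, mul_inv_cancel₀ hδ0, one_pow, mul_one]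
    · push Not at htriv
      refine ⟨1, b, fun R a hR => ?_, ?_, by rw [one_pow, mul_one]⟩
      · exfalso
        obtain ⟨f, -, hf⟩ := R.surj
        have h1 := hR.2 f
        rw [htriv, hf] at h1
        have h2 := hR.1
        omega
      · right
        rw [htriv]
        push_cast
        linarith
  intro D hD
  have h1 : pForm m y (algebraMap E L b * ∏ k, T k) D =
      algebraMap E L c * ∏ k : Fin m, trForm y (algebraMap E L g * T k) D := by
    simp only [trForm]
    rw [pForm, Finset.prod_mul_distrib, Finset.prod_mul_distrib, Finset.prod_const,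
      Finset.card_univ, Fintype.card_fin, Finset.prod_const, Finset.card_univ, Fintype.card_fin,
      hbc, map_mul, map_pow]
    ring
  rw [h1]
  have h2 : ∀ s : Finset (Fin m), P.Reg (∏ k ∈ s, trForm y (algebraMap E L g * T k) D) := by
    intro s
    induction s using Finset.induction_on with
    | empty => rw [Finset.prod_empty]; exact P.reg_one
    | insert a s ha ih =>
      rw [Finset.prod_insert ha]
      exact P.reg_mul (hT a g P hP hg D hD) ih
  rcases h2 Finset.univ with h3 | h3
  · left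
    rw [h3, mul_zero]
  rcases hc with hc | hc
  · left
    rw [hc, zero_mul]
  by_cases h4 : algebraMap E L c = 0
  · left
    rw [h4, zero_mul]
  by_cases h5 : ∏ k : Fin m, trForm y (algebraMap E L g * T k) D = 0
  · left
    rw [h5, mul_zero]
  right
  rw [P.ord_mul h4 h5]
  push_cast
  have h6 : (0 : ℚ) ≤ P.ord (∏ k : Fin m, trForm y (algebraMap E L g * T k) D) := by
    exact_mod_cast h3
  linarith

/-- **Sections of `m (K_X + Δ)` from relative forms.** -/
theorem sections_rel [Algebra.EssFiniteType ℂ E] (hL : Algebra.trdeg ℂ L = n)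
    (hE : Algebra.trdeg ℂ E = e) {z : Fin e → E} (hz : IsTranscendenceBasis ℂ z)
    {y : Fin n → L} {Y : Fin n → Derivation ℂ L L} (hY : ∀ i j, Y i (y j) = if i = j then 1 else 0)
    {r : ℕ} {T : Fin (r + 1) → L} (hT : ∀ i, RelReg n z y (T i)) (hT0 : T 0 ≠ 0)
    (hind : AlgebraicIndependent E (fun i : Fin r => T i.succ / T 0)) {N : ℕ}
    {x : Fin (N + 1) → L} (hx : NormalModel x) {Δ : Place ℂ L → ℚ} (hΔ : Effective x Δ) {p m : ℕ}
    (hm : 1 ≤ m) {η : Fin (p + 1) → (Fin e → Derivation ℂ E E) → E} (hη : ∀ j, IsPluri m (η j))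
    (hord : ∀ j (P : Place ℂ L), IsPrimeDivisor x P → ∀ (R : Place ℂ E) (c : ℕ), Over P R c →
      OrdGe R (η j) (-(m * Δ P / c)))
    {D : Fin e → Derivation ℂ E E} (hD : η 0 D ≠ 0)
    (hηind : AlgebraicIndependent ℂ (fun i : Fin p => η i.succ D / η 0 D)) :
    ∃ ω : Fin (r + p + 1) → (Fin n → Derivation ℂ L L) → L,
      (∀ i, IsSection x n m (m • Δ) (ω i)) ∧ ω 0 Y ≠ 0 ∧
      AlgebraicIndependent ℂ (fun i : Fin (r + p) => ω i.succ Y / ω 0 Y) := by
  classical
  choose Z hZ using fun i : Fin e => exists_der _ hz fun j => if i = j then (1 : E) else 0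
  obtain ⟨b, hb⟩ : ∃ b : Fin (p + 1) → E, ∀ j, b j = η j Z := ⟨_, fun _ => rfl⟩
  obtain ⟨δ, hδ⟩ : ∃ δ : E, δ = (Matrix.of fun i j => D i (z j) :
    Matrix (Fin e) (Fin e) E).det := ⟨_, rfl⟩
  have hηb : ∀ j D', η j D' = pForm m z (b j) D' := fun j D' => by
    rw [hb]
    exact pluri_coord hz hZ (hη j) D'
  have hbord : ∀ j (P : Place ℂ L), IsPrimeDivisor x P → ∀ (R : Place ℂ E) (c : ℕ), Over P R c →
      OrdGe R (pForm m z (b j)) (-(m * Δ P / c)) := by
    intro j P hP R c hR D' hD'
    rw [← hηb]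
    exact hord j P hP R c hR D' hD'
  have hb0 : b 0 ≠ 0 := by
    intro h0
    apply hD
    rw [hηb, pForm, h0, mul_zero]
  have hδ0 : δ ^ m ≠ 0 := by
    intro h0
    apply hD
    rw [hηb, pForm, ← hδ, h0, zero_mul]
  have hratio : ∀ i : Fin p, η i.succ D / η 0 D = b i.succ / b 0 := by
    intro i
    rw [hηb, hηb, pForm, pForm, ← hδ, mul_div_mul_left _ _ hδ0]
  simp only [hratio] at hηind
  obtain ⟨m', rfl⟩ : ∃ m', m = m' + 1 := ⟨m - 1, by omega⟩
  -- the sections
  obtain ⟨c, hc⟩ : ∃ c : Fin (r + p + 1) → L, c = Fin.cons (algebraMap E L (b 0) * T 0 ^ (m' + 1))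
    (Fin.append (fun i : Fin r => algebraMap E L (b 0) * (T i.succ * T 0 ^ m'))
      (fun j : Fin p => algebraMap E L (b j.succ) * T 0 ^ (m' + 1))) := ⟨_, rfl⟩
  have hreg : ∀ i (P : Place ℂ L), IsPrimeDivisor x P →
      OrdGe P (pForm (m' + 1) y (c i)) (-(((m' + 1 : ℕ) • Δ) P)) := by
    intro i P hP
    have h0 : ((m' + 1 : ℕ) • Δ) P = ((m' + 1 : ℕ) : ℚ) * Δ P := by
      rw [Pi.smul_apply, nsmul_eq_mul]
    have h00 : (0 : ℚ) ≤ ((m' + 1 : ℕ) : ℚ) * Δ P := by
      have := hΔ.1 P hP
      positivity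
    rw [h0]
    have h1 : ∀ (j : Fin (p + 1)) (s : Fin (r + 1)),
        OrdGe P (pForm (m' + 1) y (algebraMap E L (b j) * (T s * T 0 ^ m')))
          (-(((m' + 1 : ℕ) : ℚ) * Δ P)) := by
      intro j s
      have h2 := prod_ord (z := z) (y := y) hL hE hz (hP.divisorial hx hL) h00
        (fun R c hR => hbord j P hP R c hR)
        (T := Fin.cons (T s) fun _ : Fin m' => T 0) (fun k => by
          refine Fin.cases ?_ (fun k => ?_) k
          · rw [Fin.cons_zero]; exact hT s
          · rw [Fin.cons_succ]; exact hT 0)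
      rw [Fin.prod_univ_succ, Fin.cons_zero] at h2
      simp only [Fin.cons_succ, Finset.prod_const, Finset.card_univ, Fintype.card_fin] at h2
      exact h2
    have h3 : ∀ j : Fin (p + 1),
        OrdGe P (pForm (m' + 1) y (algebraMap E L (b j) * T 0 ^ (m' + 1)))
          (-(((m' + 1 : ℕ) : ℚ) * Δ P)) := by
      intro j
      have h4 := h1 j 0
      rwa [← pow_succ'] at h4
    rw [hc]
    refine Fin.cases ?_ (fun i => ?_) i
    · rw [Fin.cons_zero]
      exact h3 0
    · rw [Fin.cons_succ]
      refine Fin.addCases (fun i => ?_) (fun j => ?_) i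
      · rw [Fin.append_left]
        exact h1 0 i.succ
      · rw [Fin.append_right]
        exact h3 j.succ
  have hT0' : T 0 ^ (m' + 1) ≠ 0 := pow_ne_zero _ hT0
  have hb0' : algebraMap E L (b 0) ≠ 0 := by
    rw [Ne, map_eq_zero]
    exact hb0
  have hc0 : c 0 ≠ 0 := by
    rw [hc, Fin.cons_zero]
    exact mul_ne_zero hb0' hT0'
  refine ⟨fun i => pForm (m' + 1) y (c i), fun i => ⟨pForm_pluri _ _ _, fun P hP => hreg i P hP⟩,
    ?_, ?_⟩
  · change pForm (m' + 1) y (c 0) Y ≠ 0
    rw [pForm_dual hY]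
    exact hc0
  · have h1 := hηind.sumElim_comp hind
    have h2 := (h1.comp _ (finSumFinEquiv (m := r) (n := p)).symm.injective)
    convert h2 using 1
    funext i
    change pForm (m' + 1) y (c i.succ) Y / pForm (m' + 1) y (c 0) Y = _
    rw [pForm_dual hY, pForm_dual hY, hc, Fin.cons_zero, Fin.cons_succ, Function.comp_apply]
    refine Fin.addCases (fun i => ?_) (fun j => ?_) i
    · rw [Fin.append_left, finSumFinEquiv_symm_apply_castAdd, Sum.elim_inl,
        mul_div_mul_left _ _ hb0', pow_succ', mul_div_mul_right _ _ (pow_ne_zero _ hT0)]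
    · rw [Fin.append_right, finSumFinEquiv_symm_apply_natAdd, Sum.elim_inr, Function.comp_apply,
        mul_div_mul_right _ _ hT0', map_div₀]

end

end Pool.Agent.K4H25.RP
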