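import Pool.Agent.K4H25.RP.P2
import Pool.Agent.K4H25.RT.R14
import Pool.Agent.K4H62.AP.Big

/-!
The Kodaira and the numerical dimension of pairs over a base.
-/

set_option autoImplicit false
set_option linter.overlappingInstances false
set_option linter.unusedSectionVars false
set_option maxHeartbeats 4000000
set_option synthInstance.maxHeartbeats 400000

open FF Module Pool.Agent Pool.Agent.W602.GT Filter Pool.Agent.Y172
open Pool.Agent.R882.LT (TraceNe)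
open Pool.Agent.W619.PQ (IsUniruled)

namespace Pool.Agent.K4H25.RP

open Pool.Agent.K4H25.MG Pool.Agent.K4H25.PC Pool.Agent.K4H25.RT Pool.Agent.K4H62.AP

section

variable {K : Type} [Field K] [Algebra ℂ K] {N n : ℕ} {y : Fin (N + 1) → K}

/-- **Kodaira dimension at least `dim X - 1`**, from sections. -/
theorem dims_curve_sec (hy : NormalModel y) (hn : Algebra.trdeg ℂ K = ((n + 1 : ℕ) : Cardinal))
    {Δ : Place ℂ K → ℚ} (hΔ : Effective y Δ) {m0 : ℕ} (hm0 : 1 ≤ m0)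
    {ω : Fin (n + 1) → (Fin (n + 1) → Derivation ℂ K K) → K}
    (hω : ∀ j, IsSection y (n + 1) m0 (m0 • Δ) (ω j)) {E : Fin (n + 1) → Derivation ℂ K K}
    (hE : ω 0 E ≠ 0) (hind : AlgebraicIndependent ℂ (fun i : Fin n => ω i.succ E / ω 0 E)) :
    ∃ κ : ℕ, n ≤ κ ∧ kodairaDim y (n + 1) Δ = (κ : WithBot ℕ) ∧
      ∀ A, Effective y A → Integral y A → numericalDim y (n + 1) Δ A = (κ : EReal) := by
  obtain ⟨yc, D, hyc, hDc⟩ := exists_crd (k := ℂ) (K := K) hn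
  have hD : IsFrame D := fun G =>
    ⟨fun j => G (yc j), (Pool.Agent.W73.PG.PULL.expand yc hyc D hDc G).symm⟩
  by_cases hb : Big y (n + 1) Δ
  · obtain ⟨m0, hm0, ω, hω, E, hE, hind⟩ := hb
    obtain ⟨h1, h2⟩ := dims hΔ hD
      (fun A hA => Pool.Agent.K4H25.PC.sec_growth hy hn hΔ hA D) hm0 hω hE hind
    exact ⟨n + 1, Nat.le_succ n, h1, h2⟩
  · obtain ⟨κ, h1, h2, h3⟩ := dims2 hΔ hD (fun A hA => growth_not_big hy hn hΔ hD hb hA) hm0
      hω hE hind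
    have h4 : κ = n := by
      have h5 := h3 0 ⟨fun _ _ => le_rfl, Set.finite_empty.subset (by
        rintro P ⟨-, h⟩
        exact h rfl)⟩ (fun P _ => ⟨0, by simp⟩)
      have h6 : (κ : EReal) ≤ (n : EReal) := h5.1.trans h5.2
      have h7 : κ ≤ n := by exact_mod_cast h6
      omega
    refine ⟨κ, h1, h2, fun A hA hAint => ?_⟩
    obtain ⟨h5, h6⟩ := h3 A hA hAint
    rw [h4] at h5 ⊢
    exact le_antisymm h6 h5

/-- a smaller number of sections -/
theorem fewer {k h m0 : ℕ} (hk : h ≤ k) {Δ : Place ℂ K → ℚ}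
    {ω : Fin (k + 1) → (Fin n → Derivation ℂ K K) → K}
    (hω : ∀ j, IsSection y n m0 (m0 • Δ) (ω j)) {E : Fin n → Derivation ℂ K K}
    (hE : ω 0 E ≠ 0) (hind : AlgebraicIndependent ℂ (fun i : Fin k => ω i.succ E / ω 0 E)) :
    ∃ ω' : Fin (h + 1) → (Fin n → Derivation ℂ K K) → K,
      (∀ j, IsSection y n m0 (m0 • Δ) (ω' j)) ∧ ω' 0 E ≠ 0 ∧
        AlgebraicIndependent ℂ (fun i : Fin h => ω' i.succ E / ω' 0 E) := by
  refine ⟨fun j => ω (Fin.castLE (Nat.succ_le_succ hk) j), fun j => hω _, hE, ?_⟩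
  have h1 := hind.comp (Fin.castLE hk) (Fin.castLE_injective hk)
  exact h1

/-- the conclusion for pairs -/
theorem pair_concl (hy : NormalModel y) (hn : Algebra.trdeg ℂ K = (n : ℕ))
    {Δ : Place ℂ K → ℚ} (hΔ : Effective y Δ) {k m0 : ℕ} (hm0 : 1 ≤ m0)
    {ω : Fin (k + 1) → (Fin n → Derivation ℂ K K) → K}
    (hω : ∀ j, IsSection y n m0 (m0 • Δ) (ω j)) {E : Fin n → Derivation ℂ K K}
    (hE : ω 0 E ≠ 0) (hind : AlgebraicIndependent ℂ (fun i : Fin k => ω i.succ E / ω 0 E)) :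
    (k : WithBot ℕ) ≤ kodairaDim y n Δ ∧ (n ≤ k + 1 →
      ∃ κ : ℕ, kodairaDim y n Δ = (κ : WithBot ℕ) ∧
        ∀ A, Effective y A → Integral y A → numericalDim y n Δ A = (κ : EReal)) := by
  refine ⟨kodairaDim_ge_sec hy hn hΔ hm0 hω hE hind, fun hk => ?_⟩
  rcases Nat.eq_zero_or_pos n with h0 | h0
  · subst h0
    obtain ⟨ω', h1, h2, h3⟩ := fewer (h := 0) (Nat.zero_le k) hω hE hind
    obtain ⟨h4, h5⟩ := dims_general_sec hy hn hΔ hm0 h1 h2 h3
    exact ⟨0, h4, h5⟩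
  · obtain ⟨n', rfl⟩ : ∃ n', n = n' + 1 := ⟨n - 1, by omega⟩
    obtain ⟨ω', h1, h2, h3⟩ := fewer (h := n') (by omega) hω hE hind
    obtain ⟨κ, -, h4, h5⟩ := dims_curve_sec hy hn hΔ hm0 h1 h2 h3
    exact ⟨κ, h4, h5⟩

end

end Pool.Agent.K4H25.RP
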