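import Pool.Agent.K4H25.RP.P3

/-!
Pairs on the images of families with twisted relative forms.
-/

set_option autoImplicit false
set_option linter.unusedSectionVars false
set_option linter.overlappingInstances false
set_option maxHeartbeats 4000000
set_option synthInstance.maxHeartbeats 400000

open Module FF Pool.Agent.W602.GT Pool.Agent.W603.LV Pool.Agent.Y172
open Pool.Agent.Y184.NT (trForm trForm_pluri)
open Pool.Agent.R882.LT (SecAt TraceNe secAt_of trForm_regAt)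
open Pool.Agent.W619.PQ (IsUniruled)

namespace Pool.Agent.K4H25.RP

open Pool.Agent.K4H25.MG Pool.Agent.K4H25.PC Pool.Agent.K4H25.RT Pool.Agent.K4H62.IT

/-- the Kodaira dimension of `K_Y + Δ_Y` is at least `p` -/
def BaseGe {L : Type} [Field L] [Algebra ℂ L] {N : ℕ} (x : Fin (N + 1) → L) (Δ : Place ℂ L → ℚ)
    (E : Type) [Field E] [Algebra ℂ E] [Algebra E L] (e p : ℕ) : Prop :=
  ∃ m : ℕ, 1 ≤ m ∧ ∃ η : Fin (p + 1) → (Fin e → Derivation ℂ E E) → E,
    (∀ j, IsPluri m (η j) ∧ ∀ P : Place ℂ L, IsPrimeDivisor x P → ∀ (R : Place ℂ E) (c : ℕ),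
      Over P R c → OrdGe R (η j) (-(m * Δ P / c))) ∧
    ∃ D, η 0 D ≠ 0 ∧ AlgebraicIndependent ℂ (fun i : Fin p => η i.succ D / η 0 D)

/-- `κ(K_X + Δ) ≥ k`, and `κ = ν` if `k ≥ dim X - 1` -/
def PairGe {L : Type} [Field L] [Algebra ℂ L] {N : ℕ} (x : Fin (N + 1) → L) (n : ℕ)
    (Δ : Place ℂ L → ℚ) (k : ℕ) : Prop :=
  (k : WithBot ℕ) ≤ kodairaDim x n Δ ∧ (n ≤ k + 1 →
    ∃ κ : ℕ, kodairaDim x n Δ = (κ : WithBot ℕ) ∧
      ∀ A, Effective x A → Integral x A → numericalDim x n Δ A = (κ : EReal))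

section

variable {L E : Type} [Field L] [Field E] [Algebra ℂ L] [Algebra ℂ E] [Algebra E L]
  [IsScalarTower ℂ E L] {n e N : ℕ} {x : Fin (N + 1) → L} {Δ : Place ℂ L → ℚ}

theorem base_of_kod [Algebra.EssFiniteType ℂ E] (hL : Algebra.trdeg ℂ L = n)
    (hE : Algebra.trdeg ℂ E = e) (hx : NormalModel x) (hΔ : Effective x Δ) {p : ℕ}
    (h : KodGe ℂ E e (fun _ => False) p) : BaseGe x Δ E e p := by
  obtain ⟨m, hm, η, hη, D, hD, hind⟩ := h
  refine ⟨m, hm, η, fun j => ⟨(hη j).1, fun P hP R c hR D' hD' => ?_⟩, D, hD, hind⟩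
  have h1 := (hη j).2.2 R (div_below hR hL hE (hP.divisorial hx hL)) (fun h => h) D' hD'
  rcases h1 with h1 | h1
  · exact Or.inl h1
  · right
    have h2 : (0 : ℚ) ≤ R.ord (η j D') := by exact_mod_cast h1
    have h3 : (0 : ℚ) ≤ m * Δ P / c := by
      have := hΔ.1 P hP
      positivity
    linarith

theorem pair_rel [Algebra.EssFiniteType ℂ E] (hL : Algebra.trdeg ℂ L = n)
    (hE : Algebra.trdeg ℂ E = e) {z : Fin e → E} (hz : IsTranscendenceBasis ℂ z)
    {y : Fin n → L} {Y : Fin n → Derivation ℂ L L} (hY : ∀ i j, Y i (y j) = if i = j then 1 else 0)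
    {r : ℕ} {T : Fin (r + 1) → L} (hT : ∀ i, RelReg n z y (T i)) (hT0 : T 0 ≠ 0)
    (hind : AlgebraicIndependent E (fun i : Fin r => T i.succ / T 0)) (hx : NormalModel x)
    (hΔ : Effective x Δ) {p : ℕ} (hB : BaseGe x Δ E e p) : PairGe x n Δ (r + p) := by
  obtain ⟨m, hm, η, hη, D, hD, hηind⟩ := hB
  obtain ⟨ω, h1, h2, h3⟩ := sections_rel hL hE hz hY hT hT0 hind hx hΔ hm (fun j => (hη j).1)
    (fun j => (hη j).2) hD hηind
  exact pair_concl hx hL hΔ hm h1 h2 h3

end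

section

variable {K L E : Type} [Field K] [Field L] [Field E] [Algebra ℂ K] [Algebra ℂ L] [Algebra ℂ E]
  [Algebra L K] [IsScalarTower ℂ L K] [FiniteDimensional L K] [Algebra E L] [Algebra E K]
  [IsScalarTower ℂ E L] [IsScalarTower ℂ E K] [IsScalarTower E L K] {n e N q d : ℕ}
  {β : Fin N → Fin q} {M : Fin q → ℕ} {t : Fin N → K} {N' : ℕ} {x : Fin (N' + 1) → L}
  {Δ : Place ℂ L → ℚ}

/-- **Pairs, if the trace is not zero.** -/
theorem main_pairs [Algebra.EssFiniteType ℂ K] [Algebra.EssFiniteType ℂ E]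
    (hK : Algebra.trdeg ℂ K = n) (hE : Algebra.trdeg ℂ E = e)
    {z : Fin e → E} (hz : IsTranscendenceBasis ℂ z)
    {ω : (Fin n → Derivation ℂ K K) → K} (hω : RelTwisted n z β M t ω)
    (htn : TraceNe ω ((IntermediateField.adjoin L (Set.range t)).restrictScalars ℂ))
    (hd : Algebra.trdeg E (IntermediateField.adjoin E (Set.range t)) = (d : ℕ))
    (hx : NormalModel x) (hΔ : Effective x Δ) {p : ℕ} (hB : BaseGe x Δ E e p) :
    ((∀ Λ : Finset (Fin q), Λ.Nonempty → fdeg L β t Λ ≤ 1 + ∑ b ∈ Λ, M b) →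
      ∀ r : ℕ, r ≤ d →
        (∀ Λ : Finset (Fin q), Λ.Nonempty →
          Algebra.trdeg E (IntermediateField.adjoin E (t '' {j | β j ∉ Λ})) < (r : ℕ) →
          2 * fdeg L β t Λ ≤ 1 + ∑ b ∈ Λ, M b) →
        PairGe x n Δ (r + p)) ∧
    ((∀ b, finrank L (IntermediateField.adjoin L (Set.range t)) ≤ M b) →
      PairGe x n Δ (d - 1 + p)) := by
  classical
  have hL : Algebra.trdeg ℂ L = n := Pool.Agent.Y184.NT.trdeg_below (K := K) hK
  have h1 : (∀ Λ : Finset (Fin q), Λ.Nonempty → fdeg L β t Λ ≤ 1 + ∑ b ∈ Λ, M b) →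
      ∀ r : ℕ, r ≤ d →
        (∀ Λ : Finset (Fin q), Λ.Nonempty →
          Algebra.trdeg E (IntermediateField.adjoin E (t '' {j | β j ∉ Λ})) < (r : ℕ) →
          2 * fdeg L β t Λ ≤ 1 + ∑ b ∈ Λ, M b) →
        PairGe x n Δ (r + p) := fun hm r hr hk => by
    obtain ⟨y, Y, T, h2, h3, h4, h5⟩ := core_rel hK hω htn hd
      (fun Λ hΛ => (hm Λ hΛ).trans_eq (add_comm _ _)) hr
      fun Λ hΛ hlt => (hk Λ hΛ hlt).trans_eq (add_comm _ _)
    exact pair_rel hL hE hz h2 h3 h4 h5 hx hΔ hB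
  refine ⟨h1, fun hm => ?_⟩
  rcases Nat.eq_zero_or_pos d with hd0 | hd0
  · subst hd0
    refine h1 (fun Λ hΛ => ?_) 0 le_rfl fun Λ hΛ hlt => ?_
    · obtain ⟨b, hb⟩ := hΛ
      have h2 : fdeg L β t Λ ≤ finrank L (IntermediateField.adjoin L (Set.range t)) := fdeg_le Λ
      have h3 : M b ≤ ∑ b ∈ Λ, M b := Finset.single_le_sum (f := M) (fun _ _ => Nat.zero_le _) hb
      have h4 := hm b
      omega
    · exfalso
      rw [Nat.cast_zero] at hlt
      exact absurd hlt (not_lt.2 zero_le)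
  · obtain ⟨d', rfl⟩ : ∃ d', d = d' + 1 := ⟨d - 1, by omega⟩
    have hpos : 0 < finrank L (IntermediateField.adjoin L (Set.range t)) := finrank_pos
    obtain ⟨y, Y, T, h2, h3, h4, h5⟩ := core_line_rel (m := finrank L
      (IntermediateField.adjoin L (Set.range t))) hK hω htn hd hpos le_rfl hm
    exact pair_rel hL hE hz h2 h3 h4 h5 hx hΔ hB

end

section

variable {K L : Type} [Field K] [Field L] [Algebra ℂ K] [Algebra ℂ L]
  [Algebra L K] [IsScalarTower ℂ L K] [FiniteDimensional L K] {E : IntermediateField ℂ L}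
  {n e N q d : ℕ} {β : Fin N → Fin q} {M : Fin q → ℕ} {t : Fin N → K} {N' : ℕ}
  {x : Fin (N' + 1) → L} {Δ : Place ℂ L → ℚ}

theorem exists_trace_curves [Algebra.EssFiniteType ℂ K] [Algebra.EssFiniteType ℂ E]
    (hK : Algebra.trdeg ℂ K = (n + 1 : ℕ)) (hE : Algebra.trdeg ℂ E = e)
    (hf : Algebra.trdeg E L = (d + 1 : ℕ))
    {J : Type} [Finite J] {ω : J → (Fin (n + 1) → Derivation ℂ K K) → K}
    (hd : Algebra.trdeg E (IntermediateField.adjoin E (Set.range t)) = (d : ℕ))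
    (hcl : ∀ g : K, IsAlgebraic (IntermediateField.adjoin E (Set.range t)) g →
      g ∈ IntermediateField.adjoin E (Set.range t))
    (hspan : Pool.Agent.K4H25.LP.SpanFibL
      ((IntermediateField.adjoin E (Set.range t)).restrictScalars ℂ) (fun _ => False) ω)
    (hu : ¬ IsUniruled ℂ L (n + 1)) :
    ∃ j, TraceNe (ω j) ((IntermediateField.adjoin L (Set.range t)).restrictScalars ℂ) := by
  by_contra hcon
  push Not at hcon
  exact hu (uniruled_rel hK (dims_rel (K := K) hK hE hf hd).2 (hcl_rel hcl) hspan hcon)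

/-- **Pairs, for `F` of general type.** -/
theorem gt_pairs [Algebra.EssFiniteType ℂ K] [Algebra.EssFiniteType ℂ E]
    (hK : Algebra.trdeg ℂ K = (n + 1 : ℕ)) (hE : Algebra.trdeg ℂ E = e)
    (hf : Algebra.trdeg E L = (d + 1 : ℕ)) {z : Fin e → E} (hz : IsTranscendenceBasis ℂ z)
    {J : Type} [Finite J] {ω : J → (Fin (n + 1) → Derivation ℂ K K) → K}
    (hω : ∀ j, RelTwisted (n + 1) z β M t (ω j))
    (hd : Algebra.trdeg E (IntermediateField.adjoin E (Set.range t)) = (d : ℕ))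
    (hcl : ∀ g : K, IsAlgebraic (IntermediateField.adjoin E (Set.range t)) g →
      g ∈ IntermediateField.adjoin E (Set.range t))
    (hspan : Pool.Agent.K4H25.LP.SpanFibL
      ((IntermediateField.adjoin E (Set.range t)).restrictScalars ℂ) (fun _ => False) ω)
    (hm : ∀ Λ : Finset (Fin q), Λ.Nonempty → 2 * fdeg L β t Λ ≤ 1 + ∑ b ∈ Λ, M b)
    (hu : ¬ IsUniruled ℂ L (n + 1)) (hx : NormalModel x) (hΔ : Effective x Δ)
    {p : ℕ} (hB : BaseGe x Δ E e p) (h2 : KodGe E L (d + 1) (fun _ => False) (d + 1)) :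
    PairGe x (n + 1) Δ (d + 1 + p) := by
  classical
  have hL : Algebra.trdeg ℂ L = (n + 1 : ℕ) := Pool.Agent.Y184.NT.trdeg_below (K := K) hK
  have hessL : Algebra.EssFiniteType ℂ L := Pool.Agent.TH466.QG.ess_below (K := K)
  obtain ⟨hdn, hBt⟩ := dims_rel (K := K) hK hE hf hd
  obtain ⟨y, Y, hy, hY⟩ := Pool.Agent.Y172.exists_crd (k := ℂ) (K := L) hL
  choose Y' hY' using fun i =>
    Pool.Agent.Y172.exists_lift (k := ℂ) (K := L) (L := K) hL (Y i)
  obtain ⟨T, hT⟩ : ∃ T : J → IntermediateField.adjoin L (Set.range t),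
    ∀ j, T j = Algebra.trace (IntermediateField.adjoin L (Set.range t)) K (ω j Y') :=
      ⟨_, fun _ => rfl⟩
  by_cases hgt : ∃ j0 j1, T j0 ≠ 0 ∧
      ¬ IsAlgebraic (IntermediateField.adjoin E (Set.range t)) ((T j1 / T j0 :
        IntermediateField.adjoin L (Set.range t)) : K)
  · obtain ⟨j0, j1, h3, h4⟩ := hgt
    obtain ⟨T', h5, h6, h7⟩ := gt_rel (E := E) (j0 := j0) (j1 := j1) (u := T j1 / T j0)
      hK hω hd hf hy hY hY' (by rw [← hT]; exact h3)
      (by rw [← hT, ← hT, div_mul_cancel₀ _ h3]) h4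
      (fun Λ hΛ => (hm Λ hΛ).trans_eq (add_comm _ _))
    exact pair_rel hL hE hz hY h5 h6 h7 hx hΔ hB
  · exfalso
    push Not at hgt
    have hleB : (IntermediateField.adjoin E (Set.range t)).restrictScalars ℂ ≤
        (IntermediateField.adjoin L (Set.range t)).restrictScalars ℂ := by
      intro x hx
      have h3 : IntermediateField.adjoin E (Set.range t) ≤
          (IntermediateField.adjoin L (Set.range t)).restrictScalars E := by
        rw [IntermediateField.adjoin_le_iff]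
        exact IntermediateField.subset_adjoin L _
      exact h3 hx
    have hEB : ∀ x : E, algebraMap L K (x : L) ∈
        (IntermediateField.adjoin E (Set.range t)).restrictScalars ℂ := fun x =>
      (IntermediateField.adjoin E (Set.range t)).algebraMap_mem x
    exact hu (uniruled_prop hK hBt (hcl_rel hcl) hleB hspan
      (prop_frames hK (hcl_rel hcl) (fun j => (hω j).1) hy hY hY' hT
        fun j0 j1 h => hgt j0 j1 h) hE hf hEB h2)

end

end Pool.Agent.K4H25.RP
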